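import Pool.Agent.T6.H92.LC.Petersen

/-!
# Longest cycle intersections as vertex cuts: `f'(2) = f'(3) = 7`

For every `k ≥ 2` and every `m ≤ 7` the property `A'_k(m)` holds: if `C`, `D` are longest cycles of
a `k`-connected non-Hamiltonian graph whose circumference is larger than `m`, and `C`, `D` have at
most `m` common vertices, then the common vertices form an articulation set.  For `k = 2, 3` the
property `A'_k(8)` fails (Petersen graph).

Proof.  Suppose that `W = V(C) ∩ V(D)` has `s ≤ 7` elements and that `G - W` is connected.  The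
vertices of `W` cut `C` and `D` into `2 s` segments, and the cyclic order of `W` on the two cycles
gives finitely many types.  Since `G - W` is connected one can successively choose paths joining
the interiors of segments to what has been found before.  In every such configuration (a *model*
`H`) a nonnegative combination of cycles of the configuration dominates `a C + b D`, with
`a + b` the sum of the coefficients; this contradicts the maximality of `C` and `D`, or shows that
another segment has an interior vertex, and there are finitely many ways to connect it.  The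
certificates (about 2600 models, and 50000 embeddings of models) are checked by the kernel.
-/

namespace Pool.Agent.Results.MP_7b0c7a_co.LongestCycleArticulation

/-- `G` is `k`-connected: it has more than `k` vertices, and no set of fewer than `k` vertices
disconnects it. -/
def KConnected (k : ℕ) {V : Type} [Fintype V] (G : SimpleGraph V) : Prop :=
  k < Fintype.card V ∧ ∀ S : Finset V, S.card < k → (G.induce {x | x ∉ S}).Preconnected

/-- `C` is a longest cycle of `G`. -/
def IsLongestCycle {V : Type} {G : SimpleGraph V} {u : V} (C : G.Walk u u) : Prop :=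
  C.IsCycle ∧ ∀ (w : V) (Z : G.Walk w w), Z.IsCycle → Z.length ≤ C.length

/-- The common vertices of two cycles. -/
def common {V : Type} {G : SimpleGraph V} {u v : V} (C : G.Walk u u) (D : G.Walk v v) : Set V :=
  {x | x ∈ C.support ∧ x ∈ D.support}

/-- `W` is an articulation set: two vertices outside `W` are not joined by a path of `G - W`. -/
def IsArticulation {V : Type} (G : SimpleGraph V) (W : Set V) : Prop :=
  ¬ (G.induce Wᶜ).Preconnected

/-- The property `A'_k(m)`: for every `k`-connected non-Hamiltonian graph whose circumference is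
larger than `m`, and any two longest cycles `C`, `D` with at most `m` common vertices, the set of
the common vertices is an articulation set. -/
def AP (k m : ℕ) : Prop :=
  ∀ (V : Type) [Fintype V] [DecidableEq V] (G : SimpleGraph V), KConnected k G →
    ¬ G.IsHamiltonian → ∀ (u v : V) (C : G.Walk u u) (D : G.Walk v v), IsLongestCycle C →
      IsLongestCycle D → m < C.length → (common C D).ncard ≤ m → IsArticulation G (common C D)

theorem ap_of_le {k m : ℕ} (hk : 2 ≤ k) (hm : m ≤ 7) : AP k m := by
  classical
  intro V _ _ G hG _ u v C D hC hD hlen hcard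
  have hpre : ∀ S : Finset V, S.card ≤ 1 → (G.induce {x | x ∉ S}).Preconnected :=
    fun S hS => hG.2 S (by omega)
  have h0 : G.Preconnected := by
    have := hpre ∅ (by simp)
    intro x y
    obtain ⟨w⟩ := this ⟨x, by simp⟩ ⟨y, by simp⟩
    exact ⟨w.map (SimpleGraph.Embedding.induce _).toHom⟩
  have h1 : ∀ z, (G.induce ({z}ᶜ : Set V)).Preconnected := by
    intro z
    have := hpre {z} (by simp)
    have hset : {x | x ∉ ({z} : Finset V)} = ({z}ᶜ : Set V) := by
      ext x; simp
    rwa [hset] at this
  have hmain := Pool.Agent.T6.H92.LC.main h0 h1 C D hC.1 hD.1 hC.2 hD.2 (by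
    show (common C D).ncard ≤ 7
    omega) (by
    show (common C D).ncard < C.length
    omega)
  have hset : {x | ¬ (x ∈ C.support ∧ x ∈ D.support)} = (common C D)ᶜ := by
    ext x; rfl
  rw [hset] at hmain
  exact hmain

theorem not_ap {k : ℕ} (hk : k ≤ 3) : ¬ AP k 8 := by
  classical
  intro h
  obtain ⟨C, hC, hCs⟩ := Pool.Agent.T6.H92.LC.Petersen.exists_C
  obtain ⟨D, hD, hDs⟩ := Pool.Agent.T6.H92.LC.Petersen.exists_D
  have hCl : C.length = 9 := by
    have := congrArg List.length hCs
    simp only [SimpleGraph.Walk.length_support, List.length_cons, List.length_nil] at this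
    omega
  have hDl : D.length = 9 := by
    have := congrArg List.length hDs
    simp only [SimpleGraph.Walk.length_support, List.length_cons, List.length_nil] at this
    omega
  have hcom : common C D = (({0, 1} : Finset (Fin 10))ᶜ : Finset (Fin 10)) := by
    ext x
    unfold common
    rw [Set.mem_ofPred_eq, hCs, hDs]
    revert x
    decide
  have hK : KConnected k Pool.Agent.T6.H92.LC.Petersen.pet := by
    refine ⟨by simp; omega, fun S hS => ?_⟩
    have hS2 : S.card ≤ 2 := by omega
    obtain ⟨a, b, hab⟩ : ∃ a b : Fin 10, S ⊆ {a, b} := by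
      rcases Nat.lt_or_ge S.card 2 with h1 | h1
      · obtain ⟨a, ha⟩ := Finset.card_le_one_iff_subset_singleton.1 (by omega : S.card ≤ 1)
        exact ⟨a, a, ha.trans (by simp)⟩
      · obtain ⟨a, b, -, hab⟩ := Finset.card_eq_two.1 (by omega : S.card = 2)
        exact ⟨a, b, hab.le⟩
    exact Pool.Agent.T6.H92.LC.Petersen.pet_conn S a b hab
  have hH : ¬ Pool.Agent.T6.H92.LC.Petersen.pet.IsHamiltonian := by
    intro hH
    obtain ⟨a, p, hp⟩ := hH (by simp)
    have h1 := Pool.Agent.T6.H92.LC.Petersen.pet_cycle_le p hp.isCycle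
    have h2 := hp.length_eq
    simp at h2
    omega
  have hA := h (Fin 10) Pool.Agent.T6.H92.LC.Petersen.pet hK hH 1 0 C D
    ⟨hC, fun w Z hZ => by rw [hCl]; exact Pool.Agent.T6.H92.LC.Petersen.pet_cycle_le Z hZ⟩
    ⟨hD, fun w Z hZ => by rw [hDl]; exact Pool.Agent.T6.H92.LC.Petersen.pet_cycle_le Z hZ⟩
    (by omega) (by rw [hcom, Set.ncard_coe_finset]; decide)
  apply hA
  rw [hcom]
  have hset : (((({0, 1} : Finset (Fin 10))ᶜ : Finset (Fin 10)) : Set (Fin 10))ᶜ) =
      ({0, 1} : Set (Fin 10)) := by
    ext x
    simp only [Finset.coe_compl, compl_compl, Finset.coe_insert, Finset.coe_singleton]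
  rw [hset]
  have h01 : Pool.Agent.T6.H92.LC.Petersen.pet.Adj 0 1 := by decide
  rintro ⟨x, hx⟩ ⟨y, hy⟩
  have hx' : x = 0 ∨ x = 1 := by simpa using hx
  have hy' : y = 0 ∨ y = 1 := by simpa using hy
  rcases hx' with rfl | rfl <;> rcases hy' with rfl | rfl
  · exact SimpleGraph.Reachable.refl _
  · exact SimpleGraph.Adj.reachable h01
  · exact SimpleGraph.Adj.reachable h01.symm
  · exact SimpleGraph.Reachable.refl _

/-- `f'(2) = f'(3) = 7`: for `k = 2, 3` the number `7` is the largest `m` such that `A'_k(j)` holds
for all `j ≤ m`.  Moreover `A'_k(m)` holds for all `k ≥ 2` and `m ≤ 7`. -/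
theorem result : IsGreatest {m | ∀ j ≤ m, AP 2 j} 7 ∧ IsGreatest {m | ∀ j ≤ m, AP 3 j} 7 ∧
    ∀ k m : ℕ, 2 ≤ k → m ≤ 7 → AP k m := by
  have key : ∀ k, 2 ≤ k → k ≤ 3 → IsGreatest {m | ∀ j ≤ m, AP k j} 7 := by
    intro k h2 h3
    refine ⟨fun j hj => ap_of_le h2 hj, fun m hm => ?_⟩
    by_contra hcon
    exact not_ap h3 (hm 8 (by omega))
  exact ⟨key 2 le_rfl (by norm_num), key 3 (by norm_num) le_rfl, fun k m hk hm => ap_of_le hk hm⟩

end Pool.Agent.Results.MP_7b0c7a_co.LongestCycleArticulation
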